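import Pool.Agent.KS6_36.IRC.Cyc

/-!
# MP_4ec7af_co: every cycle of length at least 73 is an IR-graph

For every `n ≥ 73`, of either parity, there is a finite simple graph `G` whose IR-graph is
isomorphic to the cycle with `n` vertices.  So the statement of Q1 (no cycle with at least five
vertices is an IR-graph) fails for all but finitely many `n`.
-/

set_option autoImplicit false

namespace Pool.Agent.Results.MP_4ec7af_co.AllLargeCycles

theorem result : ∀ n : ℕ, 73 ≤ n →
    ∃ (V : Type) (_ : Fintype V) (G : SimpleGraph V),
      Nonempty (Q107.IRG.irGraph G ≃g SimpleGraph.cycleGraph n) :=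
  fun n hn => Pool.Agent.KS6_36.IRC.all_cycles n hn

end Pool.Agent.Results.MP_4ec7af_co.AllLargeCycles
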